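import Pool.Agent.U36.SD.Stm
import Pool.Agent.Helper379.Div3

/-!
Project SD (MP_2f3286_ag), package FM (helper913): the sum of `1 / ℓ` over the primes `ℓ ≡ 1` modulo `m` diverges.
-/

set_option autoImplicit false

namespace Pool.Agent.U913.SD

open Pool.Agent.U36.SD Pool.Agent.U36.DN

theorem t_FM : S_FM := by
  intro m hm
  haveI : NeZero m := ⟨hm.ne'⟩
  refine ⟨fun _ h => h.1, fun h => ?_⟩
  refine Pool.Agent.Helper379.Div3.not_summable_inv_primes_mod (q := m) (a := 1) isUnit_one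
    (h.congr fun n => ?_)
  have hiff : n ∈ {ℓ : ℕ | ℓ.Prime ∧ m ∣ ℓ - 1} ↔ (n.Prime ∧ ((n : ℕ) : ZMod m) = 1) := by
    constructor
    · rintro ⟨hp, hd⟩
      refine ⟨hp, ?_⟩
      have h1 : ((n - 1 : ℕ) : ZMod m) = 0 := (ZMod.natCast_eq_zero_iff _ _).2 hd
      rw [Nat.cast_sub hp.one_le, sub_eq_zero] at h1
      simpa using h1
    · rintro ⟨hp, hd⟩
      refine ⟨hp, ?_⟩
      rw [← ZMod.natCast_eq_zero_iff, Nat.cast_sub hp.one_le, hd]
      simp
  by_cases hn : n ∈ {ℓ : ℕ | ℓ.Prime ∧ m ∣ ℓ - 1}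
  · rw [Set.indicator_of_mem hn, if_pos (hiff.1 hn)]
  · rw [Set.indicator_of_notMem hn, if_neg (fun h' => hn (hiff.2 h'))]

end Pool.Agent.U913.SD
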